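import Pool.Agent.Q68.IT.Main

/-!
# Every isolated transitive `ℤ^d`-shift has topological entropy zero

Idea of the proof. Let `X` be isolated among the transitive shifts, `x ∈ X` a point with dense orbit,
and `n` so large that a transitive shift with the same patterns of size `n` is equal to `X`. Let `D` be
a finite set such that `x` restricted to `D` contains all patterns of size `n` of `X`. Suppose that two
patterns `P ≠ Q` of size `N` with the same boundary of thickness `n` both occur infinitely often in
`x`. Choose positive numbers `t_i` with `∑ t^u (Q_u - P_u) ≠ 0`, say `< 0`. Among the configurations
which agree with `x` on `D` and outside of a large box and all of whose windows of size `n` occur in `x`,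
one that minimises `∑ t^v z_v` over the box has no occurrence of `P` in the box away from `D`. A limit
`y` of such configurations has all the patterns of size `n` of `X` and no others, so its orbit closure
is `X`, but `P` occurs only finitely often in `y`; then it occurs only finitely often in `x`. So
the patterns which occur infinitely often in `x` are determined by their boundary, and `X` has entropy
zero, since the other patterns do not contribute.
-/

set_option autoImplicit false

namespace Pool.Agent.Results.MP_86c582_an.IsolatedZeroEntropy

open Filter Topology Pool.Agent.Q68.IT

/-- For all `d ≥ 1`, every shift which is isolated in the space of transitive `d`-dimensional shifts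
has topological entropy `lim n^{-d} log |L_n (X)| = 0`. -/
theorem result (d : ℕ) (hd : 1 ≤ d) (X : Set (Conf d)) (hX : IsShift X) (hT : IsTransitive X)
    (hI : IsIsolated X) :
    Tendsto (fun n : ℕ => Real.log (Nat.card (lang X n)) / (n : ℝ) ^ d) atTop (𝓝 0) :=
  main hd X hX hT hI

end Pool.Agent.Results.MP_86c582_an.IsolatedZeroEntropy
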